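import Pool.Agent.H88.BL.Targets

/-! Row LGP of board bll_modules. -/

set_option autoImplicit false
open MeasureTheory ProbabilityTheory Filter Topology Set
open scoped ENNReal NNReal

namespace Pool.Agent.H69.BL

open Pool.Agent.H88.BL

lemma pi4_lt : Real.pi ^ 4 < 98 := by
  have h1 := Real.pi_lt_d6
  have h0 := Real.pi_pos
  have h2 : Real.pi ^ 2 < 9.8697 := by nlinarith
  have h3 : Real.pi ^ 4 = Real.pi ^ 2 * Real.pi ^ 2 := by ring
  rw [h3]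
  nlinarith [sq_nonneg Real.pi]

lemma exp18_lt : Real.exp (1 / 18) < 1.06 := by
  have h1 : Real.exp (1 / 18 : ℝ) ≤ 1 + 1 / 18 + (1 / 18) ^ 2 := by
    have h := Real.abs_exp_sub_one_sub_id_le (x := (1 / 18 : ℝ)) (by norm_num)
    have h2 := (abs_le.1 h).2
    linarith
  refine h1.trans_lt (by norm_num)

lemma cos_le (hCOS : T_COS) (hNDT : T_NDT) {y s : ℝ} (hy : |y| ≤ 1 / 6) (h0 : 0 ≤ s)
    (h1 : s ≤ 1) : |Real.cos (s * (Real.pi * y))| ≤ Real.exp (-(2 * y ^ 2 * s ^ 2)) := by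
  have e1 : s * (Real.pi * y) = Real.pi * (y * s) := by ring
  have h2 : |y * s| ≤ 1 / 2 := by
    rw [abs_mul, abs_of_nonneg h0]
    have := abs_nonneg y
    nlinarith
  have h3 := hCOS (y * s)
  rw [hNDT.2 _ h2, sq_abs] at h3
  rw [e1]
  refine h3.trans (le_of_eq ?_)
  congr 1
  ring

theorem fin_bound (hCOS : T_COS) (hNDT : T_NDT) {t y : ℝ} (ht0 : 0 < t) (ht1 : t < 1)
    (hy : |y| ≤ 1 / 6) (M : ℕ) :
    |∏ i ∈ Finset.range M, Real.cos (t ^ i * (Real.pi * y))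
        - ∏ i ∈ Finset.range M, Real.exp (-((t ^ i * (Real.pi * y)) ^ 2 / 2))|
      ≤ 220 * (y ^ 4 / (1 - t ^ 2)) *
        Real.exp (-(2 * y ^ 2 * ∑ i ∈ Finset.range M, (t ^ 2) ^ i)) := by
  have hti : ∀ i : ℕ, 0 ≤ t ^ i ∧ t ^ i ≤ 1 := fun i =>
    ⟨pow_nonneg ht0.le i, pow_le_one₀ ht0.le ht1.le⟩
  have hq : ∀ i : ℕ, (t ^ i) ^ 2 = (t ^ 2) ^ i := fun i => by
    rw [← pow_mul, ← pow_mul, mul_comm]
  set q : ℕ → ℝ := fun i => Real.exp (-(2 * y ^ 2 * (t ^ 2) ^ i)) with hqdef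
  have hqpos : ∀ i, 0 < q i := fun i => Real.exp_pos _
  have hy2 : y ^ 2 ≤ 1 / 36 := by
    rw [← sq_abs]
    have := abs_nonneg y
    nlinarith
  have hz : ∀ i, |Real.cos (t ^ i * (Real.pi * y))| ≤ q i := fun i => by
    have h := cos_le hCOS hNDT hy (hti i).1 (hti i).2
    rw [hq i] at h
    exact h
  have hpi : 4 ≤ Real.pi ^ 2 := by
    have := Real.pi_gt_three
    nlinarith
  have hw : ∀ i, |Real.exp (-((t ^ i * (Real.pi * y)) ^ 2 / 2))| ≤ q i := fun i => by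
    rw [abs_of_pos (Real.exp_pos _)]
    refine Real.exp_le_exp.2 ?_
    have e1 : (t ^ i * (Real.pi * y)) ^ 2 = Real.pi ^ 2 * (y ^ 2 * (t ^ 2) ^ i) := by
      rw [← hq i]; ring
    have h1 : 0 ≤ y ^ 2 * (t ^ 2) ^ i := by positivity
    rw [e1]
    nlinarith
  have hqinv : ∀ i, (q i)⁻¹ ≤ 1.06 := fun i => by
    have e1 : (q i)⁻¹ = Real.exp (2 * y ^ 2 * (t ^ 2) ^ i) := by
      simp only [hqdef]
      rw [Real.exp_neg, inv_inv]
    rw [e1]
    refine (Real.exp_le_exp.2 ?_).trans exp18_lt.le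
    have h1 : (t ^ 2) ^ i ≤ 1 := pow_le_one₀ (sq_nonneg t) (by nlinarith)
    have h2 : 0 ≤ (t ^ 2) ^ i := by positivity
    nlinarith [sq_nonneg y]
  have hprod : ∀ a : ℕ → ℝ, ∏ i ∈ Finset.range M, a i =
      (∏ i ∈ Finset.range M, q i) * ∏ i ∈ Finset.range M, (a i * (q i)⁻¹) := fun a => by
    rw [← Finset.prod_mul_distrib]
    refine Finset.prod_congr rfl fun i _ => ?_
    field_simp [(hqpos i).ne']
  have hQ : ∏ i ∈ Finset.range M, q i =
      Real.exp (-(2 * y ^ 2 * ∑ i ∈ Finset.range M, (t ^ 2) ^ i)) := by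
    simp only [hqdef]
    rw [← Real.exp_sum]
    congr 1
    rw [Finset.sum_neg_distrib, ← Finset.mul_sum]
  rw [hprod (fun i => Real.cos (t ^ i * (Real.pi * y))),
    hprod (fun i => Real.exp (-((t ^ i * (Real.pi * y)) ^ 2 / 2))), ← mul_sub, abs_mul,
    abs_of_pos (Finset.prod_pos fun i _ => hqpos i), hQ]
  have habs : ∀ a : ℝ, ∀ i, |a| ≤ q i → |a * (q i)⁻¹| ≤ 1 := fun a i h => by
    rw [abs_mul, abs_of_pos (inv_pos.2 (hqpos i)), ← div_eq_mul_inv, div_le_one (hqpos i)]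
    exact h
  have hdiff := Pool.Agent.H91.BC.prod_diff
    (fun i => Real.cos (t ^ i * (Real.pi * y)) * (q i)⁻¹)
    (fun i => Real.exp (-((t ^ i * (Real.pi * y)) ^ 2 / 2)) * (q i)⁻¹)
    (fun i => habs _ i (hz i)) (fun i => habs _ i (hw i)) M
  have hterm : ∀ i ∈ Finset.range M,
      |Real.cos (t ^ i * (Real.pi * y)) * (q i)⁻¹
        - Real.exp (-((t ^ i * (Real.pi * y)) ^ 2 / 2)) * (q i)⁻¹|
      ≤ (t ^ 4) ^ i * (220 * y ^ 4) := fun i _ => by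
    rw [← sub_mul, abs_mul, abs_of_pos (inv_pos.2 (hqpos i))]
    have h1 := Pool.Agent.H91.BC.cos_exp (t ^ i * (Real.pi * y))
    have e1 : (t ^ i * (Real.pi * y)) ^ 4 = Real.pi ^ 4 * (y ^ 4 * (t ^ 4) ^ i) := by
      rw [← pow_mul, mul_comm 4 i, pow_mul]; ring
    rw [e1] at h1
    have h2 : 0 ≤ y ^ 4 * (t ^ 4) ^ i := by positivity
    have h3 := pi4_lt
    calc |Real.cos (t ^ i * (Real.pi * y)) - Real.exp (-((t ^ i * (Real.pi * y)) ^ 2 / 2))|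
          * (q i)⁻¹
        ≤ (2 * (98 * (y ^ 4 * (t ^ 4) ^ i))) * 1.06 := by
          refine mul_le_mul (h1.trans ?_) (hqinv i) (inv_pos.2 (hqpos i)).le (by positivity)
          nlinarith
      _ ≤ (t ^ 4) ^ i * (220 * y ^ 4) := by nlinarith
  have hsum : ∑ i ∈ Finset.range M, (t ^ 4) ^ i ≤ 1 / (1 - t ^ 2) := by
    have ht4 : t ^ 4 < 1 := pow_lt_one₀ ht0.le ht1 (by norm_num)
    have ht2 : t ^ 2 < 1 := pow_lt_one₀ ht0.le ht1 (by norm_num)
    have h1 : ∑ i ∈ Finset.range M, (t ^ 4) ^ i ≤ (1 - t ^ 4)⁻¹ :=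
      sum_le_hasSum _ (fun i _ => by positivity)
        (hasSum_geometric_of_lt_one (by positivity) ht4)
    refine h1.trans ?_
    rw [inv_eq_one_div]
    refine one_div_le_one_div_of_le (by linarith) ?_
    have : t ^ 4 ≤ t ^ 2 := pow_le_pow_of_le_one ht0.le ht1.le (by norm_num)
    linarith
  have hfin : |∏ i ∈ Finset.range M, Real.cos (t ^ i * (Real.pi * y)) * (q i)⁻¹
      - ∏ i ∈ Finset.range M, Real.exp (-((t ^ i * (Real.pi * y)) ^ 2 / 2)) * (q i)⁻¹|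
      ≤ 220 * (y ^ 4 / (1 - t ^ 2)) := by
    refine (hdiff.trans (Finset.sum_le_sum hterm)).trans ?_
    rw [← Finset.sum_mul]
    have h4 : 0 ≤ 220 * y ^ 4 := by positivity
    refine (mul_le_mul_of_nonneg_right hsum h4).trans (le_of_eq ?_)
    ring
  rw [mul_comm]
  exact mul_le_mul_of_nonneg_right hfin (Real.exp_pos _).le

theorem pf_LGP (hCOS : T_COS) (hNDT : T_NDT) : T_LGP := by
  intro t ht ht1 y hy
  have ht0 : 0 < t := by linarith
  have ht2 : t ^ 2 < 1 := pow_lt_one₀ ht0.le ht1 (by norm_num)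
  have hgeo := hasSum_geometric_of_lt_one (sq_nonneg t) ht2
  have hS : Tendsto (fun M : ℕ => ∑ i ∈ Finset.range M, (t ^ 2) ^ i) atTop
      (𝓝 (1 - t ^ 2)⁻¹) := hgeo.tendsto_sum_nat
  have hz : Tendsto (fun n => ∏ i ∈ Finset.range n, (Real.cos (t ^ i * (Real.pi * y)) : ℂ)) atTop
      (𝓝 (cf t y)) := Pool.Agent.H91.BC.tendsto_prod_cos ht0 ht1 (Real.pi * y)
  have hwe : ∀ M : ℕ, ∏ i ∈ Finset.range M, Real.exp (-((t ^ i * (Real.pi * y)) ^ 2 / 2))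
      = Real.exp (-((Real.pi * y) ^ 2 / 2 * ∑ i ∈ Finset.range M, (t ^ 2) ^ i)) := fun M => by
    rw [← Real.exp_sum]
    congr 1
    rw [Finset.mul_sum, ← Finset.sum_neg_distrib]
    refine Finset.sum_congr rfl fun i _ => ?_
    rw [mul_pow, ← pow_mul, ← pow_mul, mul_comm i 2]
    ring
  have hw : Tendsto (fun M : ℕ =>
      ∏ i ∈ Finset.range M, Real.exp (-((t ^ i * (Real.pi * y)) ^ 2 / 2))) atTop
      (𝓝 (cg t y)) := by
    simp only [hwe]
    have e1 : cg t y = Real.exp (-((Real.pi * y) ^ 2 / 2 * (1 - t ^ 2)⁻¹)) := by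
      unfold cg
      congr 2
      have : (1 - t ^ 2) ≠ 0 := by linarith
      field_simp
    rw [e1]
    exact (Real.continuous_exp.tendsto _).comp ((hS.const_mul _).neg)
  have hwc : Tendsto (fun M : ℕ => ((∏ i ∈ Finset.range M,
      Real.exp (-((t ^ i * (Real.pi * y)) ^ 2 / 2)) : ℝ) : ℂ)) atTop (𝓝 (cg t y : ℂ)) :=
    (Complex.continuous_ofReal.tendsto _).comp hw
  have hL := (hz.sub hwc).norm
  have hR : Tendsto (fun M : ℕ => 220 * (y ^ 4 / (1 - t ^ 2)) *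
      Real.exp (-(2 * y ^ 2 * ∑ i ∈ Finset.range M, (t ^ 2) ^ i))) atTop
      (𝓝 (220 * (y ^ 4 / (1 - t ^ 2)) * Real.exp (-(2 * y ^ 2 / (1 - t ^ 2))))) := by
    have e1 : -(2 * y ^ 2 / (1 - t ^ 2)) = -(2 * y ^ 2 * (1 - t ^ 2)⁻¹) := by
      rw [div_eq_mul_inv]
    rw [e1]
    exact ((Real.continuous_exp.tendsto _).comp ((hS.const_mul _).neg)).const_mul _
  refine le_of_tendsto_of_tendsto' hL hR fun M => ?_
  have h := fin_bound hCOS hNDT ht0 ht1 hy M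
  rw [← Complex.ofReal_prod, ← Complex.ofReal_sub, Complex.norm_real, Real.norm_eq_abs]
  exact h

end Pool.Agent.H69.BL
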