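import Pool.Agent.H88.BL.Targets

/-! Row SM of board bll_modules. -/

set_option autoImplicit false
open MeasureTheory ProbabilityTheory Filter Topology Set
open scoped ENNReal NNReal

namespace Pool.Agent.H69.BL

open Pool.Agent.H88.BL

/-- The variance. -/
noncomputable def vv (τ : ℝ) : ℝ≥0 := ⟨τ ^ 2, sq_nonneg τ⟩

lemma vv_coe (τ : ℝ) : ((vv τ : ℝ≥0) : ℝ) = τ ^ 2 := rfl

lemma vv_ne {τ : ℝ} (hτ : 0 < τ) : vv τ ≠ 0 := by
  intro h
  have h2 : ((vv τ : ℝ≥0) : ℝ) = 0 := by rw [h]; rfl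
  rw [vv_coe] at h2
  exact absurd h2 (by positivity)

lemma map_gauss (x τ : ℝ) :
    (gaussianReal 0 1).map (fun z => x + τ * z) = gaussianReal x (vv τ) := by
  have h1 := gaussianReal_map_const_mul (μ := 0) (v := 1) τ
  have h2 : (fun z : ℝ => x + τ * z) = (fun z => x + z) ∘ (fun z => τ * z) := rfl
  rw [h2, ← Measure.map_map (by fun_prop) (by fun_prop), h1, gaussianReal_map_const_add]
  congr 1
  · simp
  · rw [mul_one]; rfl

/-- The half integral kernel. -/
noncomputable def JJ (a b y : ℝ) : ℂ :=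
  ∫ u in Ioo a b, Complex.exp (-(Complex.I * (Real.pi * y * u)))

lemma JJ_bound (a b y : ℝ) (hab : a < b) (hy : y ≠ 0) :
    ‖JJ a b y‖ ≤ 2 * min ((b - a) / 2) (1 / |y|) := by
  have hn : ∀ u : ℝ, ‖Complex.exp (-(Complex.I * (Real.pi * y * u)))‖ = 1 := fun u => by
    rw [show -(Complex.I * (Real.pi * y * u)) = ((-(Real.pi * y * u) : ℝ) : ℂ) * Complex.I by
      push_cast; ring]
    exact Complex.norm_exp_ofReal_mul_I _
  have h1 : ‖JJ a b y‖ ≤ b - a := by
    have h := norm_setIntegral_le_of_norm_le_const (μ := volume) (s := Ioo a b) (C := 1)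
      (f := fun u : ℝ => Complex.exp (-(Complex.I * (Real.pi * y * u))))
      (by simp) (fun u _ => (hn u).le)
    unfold JJ
    refine h.trans ?_
    rw [one_mul, Measure.real, Real.volume_Ioo, ENNReal.toReal_ofReal (by linarith)]
  have h2 : ‖JJ a b y‖ ≤ 2 / |y| := by
    have hc : -(Complex.I * (Real.pi * y)) ≠ 0 := by
      simp [Real.pi_ne_zero, hy]
    have e1 : JJ a b y = ∫ u in a..b, Complex.exp (-(Complex.I * (Real.pi * y)) * u) := by
      unfold JJ
      rw [intervalIntegral.integral_of_le hab.le, ← integral_Ioc_eq_integral_Ioo]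
      refine integral_congr_ae (ae_of_all _ fun u => ?_)
      simp only
      congr 1
      ring
    rw [e1, integral_exp_mul_complex hc, norm_div]
    have e2 : ‖-(Complex.I * ((Real.pi : ℂ) * (y : ℂ)))‖ = Real.pi * |y| := by
      rw [norm_neg, norm_mul, norm_mul, Complex.norm_I, one_mul, Complex.norm_real,
        Complex.norm_real, Real.norm_eq_abs, Real.norm_eq_abs, abs_of_pos Real.pi_pos]
    have e3 : ∀ u : ℝ, ‖Complex.exp (-(Complex.I * (Real.pi * y)) * u)‖ = 1 := fun u => by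
      have := hn u
      rwa [show -(Complex.I * (Real.pi * y)) * (u : ℂ) = -(Complex.I * (Real.pi * y * u)) by ring]
    rw [e2]
    have hy' : 0 < |y| := abs_pos.2 hy
    have hnum : ‖Complex.exp (-(Complex.I * (Real.pi * y)) * b)
        - Complex.exp (-(Complex.I * (Real.pi * y)) * a)‖ ≤ 2 := by
      refine (norm_sub_le _ _).trans ?_
      rw [e3, e3]; norm_num
    rw [div_le_div_iff₀ (by positivity) hy']
    have hp := Real.pi_gt_three
    nlinarith
  rw [show (2 : ℝ) * min ((b - a) / 2) (1 / |y|) = min (b - a) (2 / |y|) by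
    rw [mul_min_of_nonneg _ _ (by norm_num : (0 : ℝ) ≤ 2)]
    congr 1
    · ring
    · ring]
  exact le_min h1 h2

/-- The integrand. -/
noncomputable def GG (τ y : ℝ) (p : ℝ × ℝ) : ℂ :=
  Complex.exp (-((Real.pi ^ 2 * τ ^ 2 / 2 : ℝ) : ℂ) * (y : ℂ) ^ 2) *
    (Complex.exp (Complex.I * (Real.pi * y * p.1)) *
      Complex.exp (-(Complex.I * (Real.pi * y * p.2))))

lemma kappa {τ : ℝ} (hτ : 0 < τ) (p : ℝ × ℝ) :
    ∫ y : ℝ, GG τ y p = ((2 * gaussianPDFReal p.1 (vv τ) p.2 : ℝ) : ℂ) := by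
  obtain ⟨x, u⟩ := p
  set β : ℝ := Real.pi ^ 2 * τ ^ 2 / 2 with hβ
  have hpi := Real.pi_pos
  have hβ0 : 0 < β := by positivity
  have h := fourierIntegral_gaussian (b := (β : ℂ)) (by simpa using hβ0)
    ((Real.pi * (x - u) : ℝ) : ℂ)
  have e1 : ∫ y : ℝ, GG τ y (x, u) =
      ∫ y : ℝ, Complex.exp (Complex.I * ((Real.pi * (x - u) : ℝ) : ℂ) * y) *
        Complex.exp (-(β : ℂ) * (y : ℂ) ^ 2) := by
    refine integral_congr_ae (ae_of_all _ fun y => ?_)
    simp only [GG]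
    rw [← Complex.exp_add, ← Complex.exp_add, ← Complex.exp_add]
    congr 1
    simp only [hβ]
    push_cast
    ring
  rw [e1, h]
  have e2 : ((Real.pi : ℂ) / (β : ℂ)) ^ (1 / 2 : ℂ) = ((2 * (√(2 * Real.pi * τ ^ 2))⁻¹ : ℝ) : ℂ) := by
    have h3 : ((Real.pi : ℂ) / (β : ℂ)) = ((Real.pi / β : ℝ) : ℂ) := by push_cast; ring
    rw [h3, show (1 / 2 : ℂ) = ((1 / 2 : ℝ) : ℂ) by push_cast; ring,
      ← Complex.ofReal_cpow (by positivity), ← Real.sqrt_eq_rpow]
    congr 1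
    have h4 : Real.pi / β = (2 * (√(2 * Real.pi * τ ^ 2))⁻¹) ^ 2 := by
      rw [mul_pow, inv_pow, Real.sq_sqrt (by positivity), hβ]
      field_simp
    rw [h4, Real.sqrt_sq (by positivity)]
  rw [e2]
  have e3 : Complex.exp (-((Real.pi * (x - u) : ℝ) : ℂ) ^ 2 / (4 * (β : ℂ)))
      = ((Real.exp (-(u - x) ^ 2 / (2 * τ ^ 2)) : ℝ) : ℂ) := by
    rw [Complex.ofReal_exp]
    congr 1
    have h5 : ((-(Real.pi * (x - u)) ^ 2 / (4 * β) : ℝ)) = -(u - x) ^ 2 / (2 * τ ^ 2) := by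
      rw [hβ]
      field_simp
      ring
    rw [← h5]
    push_cast
    ring
  rw [e3, gaussianPDFReal_def]
  simp only [vv_coe]
  push_cast
  ring

lemma norm_GG (τ y : ℝ) (p : ℝ × ℝ) :
    ‖GG τ y p‖ = Real.exp (-(Real.pi ^ 2 * τ ^ 2 / 2) * y ^ 2) := by
  unfold GG
  rw [norm_mul, norm_mul]
  have h1 : ‖Complex.exp (Complex.I * (Real.pi * y * p.1))‖ = 1 := by
    rw [show Complex.I * (Real.pi * y * p.1) = ((Real.pi * y * p.1 : ℝ) : ℂ) * Complex.I by
      push_cast; ring]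
    exact Complex.norm_exp_ofReal_mul_I _
  have h2 : ‖Complex.exp (-(Complex.I * (Real.pi * y * p.2)))‖ = 1 := by
    rw [show -(Complex.I * (Real.pi * y * p.2)) = ((-(Real.pi * y * p.2) : ℝ) : ℂ) * Complex.I by
      push_cast; ring]
    exact Complex.norm_exp_ofReal_mul_I _
  have h3 : Complex.exp (-((Real.pi ^ 2 * τ ^ 2 / 2 : ℝ) : ℂ) * (y : ℂ) ^ 2)
      = ((Real.exp (-(Real.pi ^ 2 * τ ^ 2 / 2) * y ^ 2) : ℝ) : ℂ) := by
    rw [Complex.ofReal_exp]
    congr 1
    push_cast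
    ring
  rw [h1, h2, mul_one, mul_one, h3, Complex.norm_real, Real.norm_eq_abs,
    abs_of_pos (Real.exp_pos _)]

lemma cont_GG (τ : ℝ) : Continuous (Function.uncurry (GG τ)) := by
  unfold GG Function.uncurry
  fun_prop

lemma int_GG {τ : ℝ} (hτ : 0 < τ) (ν : Measure (ℝ × ℝ)) [IsFiniteMeasure ν] :
    Integrable (Function.uncurry (GG τ)) ((volume : Measure ℝ).prod ν) := by
  have hβ0 : 0 < Real.pi ^ 2 * τ ^ 2 / 2 := by
    have := Real.pi_pos
    positivity
  have h1 : Integrable (fun q : ℝ × (ℝ × ℝ) =>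
      Real.exp (-(Real.pi ^ 2 * τ ^ 2 / 2) * q.1 ^ 2) * (1 : ℝ))
      ((volume : Measure ℝ).prod ν) :=
    (integrable_exp_neg_mul_sq hβ0).mul_prod (integrable_const (1 : ℝ))
  refine h1.mono' (cont_GG τ).aestronglyMeasurable (ae_of_all _ fun q => ?_)
  rw [mul_one]
  exact (norm_GG τ q.1 q.2).le

/-- The product measure. -/
noncomputable def nn (μ : Measure ℝ) (a b : ℝ) : Measure (ℝ × ℝ) :=
  μ.prod (volume.restrict (Ioo a b))

/-- The smoothed mass of the interval. -/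
noncomputable def BB (μ : Measure ℝ) (a b τ : ℝ) : ℝ :=
  ∫ p, gaussianPDFReal p.1 (vv τ) p.2 ∂(nn μ a b)

instance nn_finite (μ : Measure ℝ) [IsFiniteMeasure μ] (a b : ℝ) : IsFiniteMeasure (nn μ a b) := by
  unfold nn
  infer_instance

lemma inner_GG (μ : Measure ℝ) [IsFiniteMeasure μ] (a b τ y : ℝ) :
    ∫ p, GG τ y p ∂(nn μ a b) =
      Complex.exp (-((Real.pi ^ 2 * τ ^ 2 / 2 : ℝ) : ℂ) * (y : ℂ) ^ 2) *
        (charFun μ (Real.pi * y) * JJ a b y) := by
  unfold GG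
  rw [integral_const_mul]
  congr 1
  unfold nn JJ
  rw [integral_prod_mul (fun x : ℝ => Complex.exp (Complex.I * (Real.pi * y * x)))
    (fun u : ℝ => Complex.exp (-(Complex.I * (Real.pi * y * u))))]
  congr 1
  rw [charFun_apply_real]
  refine integral_congr_ae (ae_of_all _ fun x => ?_)
  simp only
  congr 1
  push_cast
  ring

lemma formula (μ : Measure ℝ) [IsFiniteMeasure μ] (a b : ℝ) {τ : ℝ} (hτ : 0 < τ) :
    ((2 * BB μ a b τ : ℝ) : ℂ) = ∫ y : ℝ,
      Complex.exp (-((Real.pi ^ 2 * τ ^ 2 / 2 : ℝ) : ℂ) * (y : ℂ) ^ 2) *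
        (charFun μ (Real.pi * y) * JJ a b y) ∧
    Integrable (fun y : ℝ =>
      Complex.exp (-((Real.pi ^ 2 * τ ^ 2 / 2 : ℝ) : ℂ) * (y : ℂ) ^ 2) *
        (charFun μ (Real.pi * y) * JJ a b y)) := by
  have hG := int_GG hτ (nn μ a b)
  constructor
  · have h1 := integral_integral_swap hG
    simp only [inner_GG, kappa hτ] at h1
    rw [h1, integral_complex_ofReal, integral_const_mul]
    rfl
  · have h2 := hG.integral_prod_left
    simp only [Function.uncurry, inner_GG] at h2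
    exact h2

lemma BB_le (μ ρ : Measure ℝ) [IsFiniteMeasure μ] [IsFiniteMeasure ρ] {a b τ : ℝ}
    (hab : a < b) (hτ : 0 < τ) :
    ENNReal.ofReal (BB μ a b τ) ≤ ENNReal.ofReal (BB ρ a b τ) + ∫⁻ y : ℝ, ENNReal.ofReal
      (‖charFun μ (Real.pi * y) - charFun ρ (Real.pi * y)‖ * min ((b - a) / 2) (1 / |y|)) := by
  obtain ⟨f1, i1⟩ := formula μ a b hτ
  obtain ⟨f2, i2⟩ := formula ρ a b hτ
  have h1 : ENNReal.ofReal (BB μ a b τ) ≤
      ENNReal.ofReal (BB ρ a b τ) + ENNReal.ofReal |BB μ a b τ - BB ρ a b τ| := by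
    refine (ENNReal.ofReal_le_ofReal ?_).trans ENNReal.ofReal_add_le
    have := le_abs_self (BB μ a b τ - BB ρ a b τ)
    linarith
  refine h1.trans (add_le_add_right ?_ _)
  have e1 : ENNReal.ofReal |2 * BB μ a b τ - 2 * BB ρ a b τ| =
      ‖∫ y : ℝ, (Complex.exp (-((Real.pi ^ 2 * τ ^ 2 / 2 : ℝ) : ℂ) * (y : ℂ) ^ 2) *
        (charFun μ (Real.pi * y) * JJ a b y) -
        Complex.exp (-((Real.pi ^ 2 * τ ^ 2 / 2 : ℝ) : ℂ) * (y : ℂ) ^ 2) *
        (charFun ρ (Real.pi * y) * JJ a b y))‖ₑ := by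
    rw [integral_sub i1 i2, ← f1, ← f2, ← Complex.ofReal_sub, ← ofReal_norm_eq_enorm,
      Complex.norm_real, Real.norm_eq_abs]
  have e2 : ENNReal.ofReal |2 * BB μ a b τ - 2 * BB ρ a b τ| ≤ ∫⁻ y : ℝ, ENNReal.ofReal
      (2 * (‖charFun μ (Real.pi * y) - charFun ρ (Real.pi * y)‖ *
        min ((b - a) / 2) (1 / |y|))) := by
    rw [e1]
    refine (enorm_integral_le_lintegral_enorm _).trans ?_
    have hae : ∀ᵐ y : ℝ, y ≠ 0 := by
      have : (volume : Measure ℝ) {(0 : ℝ)} = 0 := by simp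
      exact compl_mem_ae_iff.2 this
    refine lintegral_mono_ae (hae.mono fun y hy => ?_)
    rw [← mul_sub, ← sub_mul, ← ofReal_norm_eq_enorm]
    refine ENNReal.ofReal_le_ofReal ?_
    rw [norm_mul, norm_mul]
    have h3 : ‖Complex.exp (-((Real.pi ^ 2 * τ ^ 2 / 2 : ℝ) : ℂ) * (y : ℂ) ^ 2)‖ ≤ 1 := by
      rw [show -((Real.pi ^ 2 * τ ^ 2 / 2 : ℝ) : ℂ) * (y : ℂ) ^ 2
        = ((-(Real.pi ^ 2 * τ ^ 2 / 2) * y ^ 2 : ℝ) : ℂ) by push_cast; ring,
        ← Complex.ofReal_exp, Complex.norm_real, Real.norm_eq_abs, abs_of_pos (Real.exp_pos _)]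
      refine Real.exp_le_one_iff.2 ?_
      have : 0 ≤ Real.pi ^ 2 * τ ^ 2 / 2 * y ^ 2 := by positivity
      linarith
    have h4 := JJ_bound a b y hab hy
    calc ‖Complex.exp (-((Real.pi ^ 2 * τ ^ 2 / 2 : ℝ) : ℂ) * (y : ℂ) ^ 2)‖ *
          (‖charFun μ (Real.pi * y) - charFun ρ (Real.pi * y)‖ * ‖JJ a b y‖)
        ≤ 1 * (‖charFun μ (Real.pi * y) - charFun ρ (Real.pi * y)‖ *
          (2 * min ((b - a) / 2) (1 / |y|))) := by gcongr
      _ = _ := by ring
  have e3 : ∫⁻ y : ℝ, ENNReal.ofReal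
      (2 * (‖charFun μ (Real.pi * y) - charFun ρ (Real.pi * y)‖ *
        min ((b - a) / 2) (1 / |y|))) = 2 * ∫⁻ y : ℝ, ENNReal.ofReal
      (‖charFun μ (Real.pi * y) - charFun ρ (Real.pi * y)‖ * min ((b - a) / 2) (1 / |y|)) := by
    rw [← lintegral_const_mul' _ _ (by simp)]
    refine lintegral_congr fun y => ?_
    rw [ENNReal.ofReal_mul (by norm_num)]
    norm_num
  have e4 : ENNReal.ofReal |2 * BB μ a b τ - 2 * BB ρ a b τ|
      = 2 * ENNReal.ofReal |BB μ a b τ - BB ρ a b τ| := by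
    rw [← mul_sub, abs_mul, ENNReal.ofReal_mul (abs_nonneg _)]
    norm_num
  rw [e3, e4] at e2
  exact (ENNReal.mul_le_mul_iff_right (by norm_num) (by norm_num)).1 e2

/-- The shifted indicator. -/
noncomputable def ff (a b τ : ℝ) (p : ℝ × ℝ) : ℝ≥0∞ :=
  (Ioo a b).indicator (fun _ => (1 : ℝ≥0∞)) (p.1 + τ * p.2)

lemma meas_ff (a b τ : ℝ) : Measurable (ff a b τ) := by
  unfold ff
  exact (measurable_const.indicator measurableSet_Ioo).comp (by fun_prop)

lemma int_pdf (μ : Measure ℝ) [IsFiniteMeasure μ] (a b τ : ℝ) :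
    Integrable (fun p : ℝ × ℝ => gaussianPDFReal p.1 (vv τ) p.2) (nn μ a b) := by
  have hc : Continuous (fun p : ℝ × ℝ => gaussianPDFReal p.1 (vv τ) p.2) := by
    simp only [gaussianPDFReal_def]
    fun_prop
  refine Integrable.of_bound hc.aestronglyMeasurable ((√(2 * Real.pi * (vv τ : ℝ)))⁻¹)
    (ae_of_all _ fun p => ?_)
  rw [Real.norm_eq_abs, abs_of_nonneg (gaussianPDFReal_nonneg _ _ _)]
  simp only [gaussianPDFReal_def]
  refine mul_le_of_le_one_right (by positivity) (Real.exp_le_one_iff.2 ?_)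
  have h1 : 0 ≤ (p.2 - p.1) ^ 2 := sq_nonneg _
  have h2 : 0 ≤ 2 * ((vv τ : ℝ≥0) : ℝ) := by positivity
  exact div_nonpos_of_nonpos_of_nonneg (by linarith) h2

lemma BB_eq (μ : Measure ℝ) [IsFiniteMeasure μ] (a b : ℝ) {τ : ℝ} (hτ : 0 < τ) :
    ENNReal.ofReal (BB μ a b τ) = ∫⁻ p, ff a b τ p ∂(μ.prod (gaussianReal 0 1)) := by
  have hpdf : Measurable (fun p : ℝ × ℝ => ENNReal.ofReal (gaussianPDFReal p.1 (vv τ) p.2)) := by
    have hc : Continuous (fun p : ℝ × ℝ => gaussianPDFReal p.1 (vv τ) p.2) := by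
      simp only [gaussianPDFReal_def]
      fun_prop
    exact hc.measurable.ennreal_ofReal
  unfold BB
  rw [ofReal_integral_eq_lintegral_ofReal (int_pdf μ a b τ)
    (ae_of_all _ fun p => gaussianPDFReal_nonneg _ _ _)]
  unfold nn
  rw [lintegral_prod _ hpdf.aemeasurable, lintegral_prod _ (meas_ff a b τ).aemeasurable]
  refine lintegral_congr fun x => ?_
  have h1 : ∫⁻ u in Ioo a b, ENNReal.ofReal (gaussianPDFReal x (vv τ) u)
      = gaussianReal x (vv τ) (Ioo a b) := by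
    rw [gaussianReal_apply _ (vv_ne hτ)]
    rfl
  simp only
  rw [h1, ← map_gauss, Measure.map_apply (by fun_prop) measurableSet_Ioo]
  have h2 : ∀ z : ℝ, ff a b τ (x, z) =
      ((fun z : ℝ => x + τ * z) ⁻¹' Ioo a b).indicator (fun _ => (1 : ℝ≥0∞)) z := fun z => rfl
  simp only [h2]
  rw [lintegral_indicator (measurableSet_Ioo.preimage (by fun_prop))]
  simp

/-- The sequence of widths. -/
noncomputable def tn (n : ℕ) : ℝ := 1 / ((n : ℝ) + 1)

lemma tn_pos (n : ℕ) : 0 < tn n := by unfold tn; positivity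

lemma tn_tendsto (x z : ℝ) : Tendsto (fun n => x + tn n * z) atTop (𝓝 x) := by
  have h := (tendsto_one_div_add_atTop_nhds_zero_nat (𝕜 := ℝ)).mul_const z
  have h2 := h.const_add x
  simpa [tn] using h2

lemma low (μ : Measure ℝ) [IsFiniteMeasure μ] (a b : ℝ) :
    μ (Ioo a b) ≤ liminf (fun n => ENNReal.ofReal (BB μ a b (tn n))) atTop := by
  have e1 : ∀ n, ENNReal.ofReal (BB μ a b (tn n)) =
      ∫⁻ p, ff a b (tn n) p ∂(μ.prod (gaussianReal 0 1)) := fun n => BB_eq μ a b (tn_pos n)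
  simp only [e1]
  refine le_trans ?_ (lintegral_liminf_le fun n => meas_ff a b (tn n))
  have e2 : μ (Ioo a b) = ∫⁻ p, (Ioo a b ×ˢ (univ : Set ℝ)).indicator (fun _ => (1 : ℝ≥0∞)) p
      ∂(μ.prod (gaussianReal 0 1)) := by
    rw [lintegral_indicator (measurableSet_Ioo.prod MeasurableSet.univ)]
    simp [Measure.prod_prod]
  rw [e2]
  refine lintegral_mono fun p => ?_
  by_cases hp : p.1 ∈ Ioo a b
  · have hev : ∀ᶠ n in atTop, ff a b (tn n) p = 1 := by
      have h3 := (tn_tendsto p.1 p.2).eventually (Ioo_mem_nhds hp.1 hp.2)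
      refine h3.mono fun n hn => ?_
      unfold ff
      exact indicator_of_mem (show p.1 + tn n * p.2 ∈ Ioo a b from hn) _
    have h4 : liminf (fun n => ff a b (tn n) p) atTop = 1 :=
      Tendsto.liminf_eq (tendsto_const_nhds.congr' (hev.mono fun n hn => hn.symm))
    rw [h4]
    exact indicator_le_self' (fun _ _ => bot_le) p
  · rw [indicator_of_notMem (by simpa using hp)]
    exact bot_le

lemma upp (μ : Measure ℝ) [IsFiniteMeasure μ] (a b : ℝ) :
    limsup (fun n => ENNReal.ofReal (BB μ a b (tn n))) atTop ≤ μ (Icc a b) := by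
  have e1 : ∀ n, ENNReal.ofReal (BB μ a b (tn n)) =
      ∫⁻ p, ff a b (tn n) p ∂(μ.prod (gaussianReal 0 1)) := fun n => BB_eq μ a b (tn_pos n)
  simp only [e1]
  refine (limsup_lintegral_le (fun _ => 1) (fun n => meas_ff a b (tn n))
    (fun n => ae_of_all _ fun p => ?_) ?_).trans ?_
  · unfold ff
    exact indicator_le_self' (fun _ _ => bot_le) _
  · simp only [lintegral_const, one_mul]
    exact measure_ne_top _ _
  · have e2 : μ (Icc a b) = ∫⁻ p, (Icc a b ×ˢ (univ : Set ℝ)).indicator (fun _ => (1 : ℝ≥0∞)) p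
        ∂(μ.prod (gaussianReal 0 1)) := by
      rw [lintegral_indicator (measurableSet_Icc.prod MeasurableSet.univ)]
      simp [Measure.prod_prod]
    rw [e2]
    refine lintegral_mono fun p => ?_
    by_cases hp : p.1 ∈ Icc a b
    · rw [indicator_of_mem (by simpa using hp)]
      refine limsup_le_of_le (by isBoundedDefault) (Eventually.of_forall fun n => ?_)
      unfold ff
      exact indicator_le_self' (fun _ _ => bot_le) _
    · have hev : ∀ᶠ n in atTop, ff a b (tn n) p = 0 := by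
        have h3 := (tn_tendsto p.1 p.2).eventually (isClosed_Icc.isOpen_compl.mem_nhds hp)
        refine h3.mono fun n hn => ?_
        unfold ff
        rw [indicator_of_notMem fun h => hn (Ioo_subset_Icc_self h)]
      have h4 : limsup (fun n => ff a b (tn n) p) atTop = 0 :=
        Tendsto.limsup_eq (tendsto_const_nhds.congr' (hev.mono fun n hn => hn.symm))
      rw [h4]
      exact bot_le

theorem pf_SM : T_SM := by
  intro μ ρ _ _ a b hab
  set D : ℝ≥0∞ := ∫⁻ y : ℝ, ENNReal.ofReal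
    (‖charFun μ (Real.pi * y) - charFun ρ (Real.pi * y)‖ * min ((b - a) / 2) (1 / |y|)) with hD
  have h1 := low μ a b
  have h2 := upp ρ a b
  have h3 : ∀ n, ENNReal.ofReal (BB μ a b (tn n)) ≤ ENNReal.ofReal (BB ρ a b (tn n)) + D :=
    fun n => BB_le μ ρ hab (tn_pos n)
  refine h1.trans ?_
  have h4 : liminf (fun n => ENNReal.ofReal (BB μ a b (tn n))) atTop
      ≤ limsup (fun n => ENNReal.ofReal (BB μ a b (tn n))) atTop := liminf_le_limsup
  refine h4.trans ?_
  refine (limsup_le_limsup (Eventually.of_forall h3)).trans ?_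
  refine (limsup_add_const atTop _ D (by isBoundedDefault) (by isBoundedDefault)).le.trans ?_
  exact add_le_add_left h2 D

end Pool.Agent.H69.BL
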